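import Pool.Agent.Helper53.KC.Goals

/-! # KC-LOW: lower bounds for the numbers of stable sets and of matroids -/

namespace Pool.Agent.Helper38.KC

open Finset Pool.Agent.Helper53.KC

theorem low (hfin : FinmStmt) (hgs : GsStmt) (hspm : SpmStmt) : LowStmt := by
  classical
  intro n r h1 h2
  have hn : 1 ≤ n := by omega
  refine ⟨?_, ?_⟩
  · -- sparse paving matroids
    unfold istab numLab
    haveI := hfin n
    set I := ((V n r) \ (∅ : Finset (Finset (Fin n)))).powerset.filter Stb with hI
    have hI' : ∀ S ∈ I, S ⊆ V n r ∧ Stb S := by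
      intro S hS
      rw [hI, Finset.mem_filter, Finset.mem_powerset, Finset.sdiff_empty] at hS
      exact hS
    have hex : ∀ S : Finset (Finset (Fin n)), ∃ M : Matroid (Fin n),
        S ∈ I → (Rk r M ∧ NB r M = S) := by
      intro S
      by_cases hS : S ∈ I
      · obtain ⟨M, hM⟩ := hspm n r S h1 h2 (hI' S hS).1 (hI' S hS).2
        exact ⟨M, fun _ => hM⟩
      · exact ⟨Matroid.emptyOn (Fin n), fun h => absurd h hS⟩
    choose f hf using hex
    have hfin2 : Set.Finite {M ∈ Lab n | True} := Set.toFinite _
    have := Set.ncard_le_ncard_of_injOn (s := (I : Set (Finset (Finset (Fin n)))))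
      (t := {M : Matroid (Fin n) | M ∈ Lab n ∧ True}) f
      (fun S hS => ⟨((hf S hS).1).1, trivial⟩)
      (fun S hS S' hS' h => by
        rw [← (hf S hS).2, ← (hf S' hS').2, h]) hfin2
    rw [Set.ncard_coe_finset] at this
    convert this using 1
  · obtain ⟨S, hS, hst, hc⟩ := hgs n r (V n r) hn (Finset.Subset.refl _)
    have hV : (V n r).card = n.choose r := by
      unfold V
      rw [Finset.card_powersetCard, Finset.card_univ, Fintype.card_fin]
    rw [hV] at hc
    have hsub : S.powerset ⊆ ((V n r) \ (∅ : Finset (Finset (Fin n)))).powerset.filter Stb := by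
      intro T hT
      rw [Finset.mem_powerset] at hT
      rw [Finset.mem_filter, Finset.mem_powerset, Finset.sdiff_empty]
      exact ⟨hT.trans hS, fun X hX Y hY => hst X (hT hX) Y (hT hY)⟩
    have hcard := Finset.card_le_card hsub
    rw [Finset.card_powerset] at hcard
    have h3 : (n.choose r : ℝ) / n ≤ (S.card : ℝ) := by
      rw [div_le_iff₀ (by exact_mod_cast hn)]
      have : (n.choose r : ℝ) ≤ (n : ℝ) * S.card := by exact_mod_cast hc
      linarith
    calc (2 : ℝ) ^ ((n.choose r : ℝ) / n) ≤ (2 : ℝ) ^ ((S.card : ℕ) : ℝ) :=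
          Real.rpow_le_rpow_of_exponent_le (by norm_num) h3
      _ = ((2 ^ S.card : ℕ) : ℝ) := by rw [Real.rpow_natCast]; push_cast; rfl
      _ ≤ (istab n r ∅ : ℝ) := by
          have : 2 ^ S.card ≤ istab n r ∅ := by
            unfold istab
            convert hcard using 1
          exact_mod_cast this

end Pool.Agent.Helper38.KC
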